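import Pool.Agent.H68.QC.Targets

/-!
# Change of the names of the variables
-/

set_option autoImplicit false

namespace Pool.Agent.H46.QC

open Pool.Agent.H68.QC Pool.Agent.H70.OQ Pool.Agent.H70.RK Pool.Agent.H6.NB Finset

theorem adp_map {V V' α : Type} (φ : V → V') (q : ((V → Bool) → Bool) → Prop)
    (q' : ((V' → Bool) → Bool) → Prop) (h : ∀ p, q p → q' fun y => p fun v => y (φ v)) (c : ℕ)
    (g : (V → Bool) → α) (hg : Adp q c g) : Adp q' c fun y => g fun v => y (φ v) := by
  induction hg with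
  | pure c a => exact Adp.pure c a
  | ask c p g g0 g1 hp h0 h1 hg1 hg0 ih0 ih1 =>
    exact Adp.ask c (fun y => p fun v => y (φ v)) _ (fun y => g0 fun v => y (φ v))
      (fun y => g1 fun v => y (φ v)) (h p hp) ih0 ih1 (fun y hy => hg1 _ hy) (fun y hy => hg0 _ hy)

theorem qst_map {V V' : Type} (φ : V → V') (u r : ℕ) :
    ∀ p, Qst V u r p → Qst V' u r fun y => p fun v => y (φ v) := by
  induction r with
  | zero =>
    rintro p ⟨v, hv⟩
    exact ⟨φ v, fun y => hv _⟩
  | succ r ih =>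
    rintro p ⟨L, hL, hg, hp⟩
    refine ⟨L.map fun g y => g fun v => y (φ v), ?_, ?_, ?_⟩
    · rw [List.length_map]
      exact hL
    · intro g hgL
      obtain ⟨g', hg', rfl⟩ := List.mem_map.1 hgL
      exact adp_map φ _ _ ih u g' (hg g' hg')
    · intro y
      constructor
      · intro h
        obtain ⟨g, h1, h2⟩ := (hp fun v => y (φ v)).1 h
        exact ⟨_, List.mem_map.2 ⟨g, h1, rfl⟩, h2⟩
      · rintro ⟨g, h1, h2⟩
        obtain ⟨g', hg', rfl⟩ := List.mem_map.1 h1
        exact (hp fun v => y (φ v)).2 ⟨g', hg', h2⟩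

theorem pf_ARN : T_ARN := fun _ _ φ t u r g hg => adp_map φ _ _ (qst_map φ u r) t g hg

end Pool.Agent.H46.QC
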